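import Pool.Agent.Y996.TL.Stm
import Pool.Agent.H988R2.Perc.T13

/-! C15: the trilinear pairing at the vectors of the three strips is `GR3` at ones. -/

set_option autoImplicit false

namespace Pool.Agent.Y125.TL

open Pool.Agent.H988R2.Perc hiding X
open Pool.Agent.H492C
open Pool.Agent.Y996.TL
open Pool.Agent.H980R3.Slit (psi1)
open Finset Polynomial

theorem eqvGen_le {α : Type*} {E F : α → α → Prop}
    (h : ∀ x y, E x y → Relation.EqvGen F x y)
    {x y : α} (hxy : Relation.EqvGen E x y) : Relation.EqvGen F x y := by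
  induction hxy with
  | rel x y hh => exact h x y hh
  | refl x => exact Relation.EqvGen.refl _
  | symm x y _ ih => exact Relation.EqvGen.symm _ _ ih
  | trans x y z _ _ ih1 ih2 => exact Relation.EqvGen.trans _ _ _ ih1 ih2

/-- Adding an edge between `p` and `p'`. -/
theorem eqvGen_edge {α : Type*} {E F : α → α → Prop} {p p' : α}
    (h : ∀ x y, E x y → Relation.EqvGen F x y ∨
      ((Relation.EqvGen F x p ∨ Relation.EqvGen F x p') ∧
        (Relation.EqvGen F y p ∨ Relation.EqvGen F y p')))
    {x y : α} (hxy : Relation.EqvGen E x y) : Relation.EqvGen F x y ∨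
      ((Relation.EqvGen F x p ∨ Relation.EqvGen F x p') ∧
        (Relation.EqvGen F y p ∨ Relation.EqvGen F y p')) := by
  induction hxy with
  | rel x y hh => exact h x y hh
  | refl x => exact Or.inl (Relation.EqvGen.refl _)
  | symm x y _ ih =>
    rcases ih with ih | ⟨h1, h2⟩
    · exact Or.inl (Relation.EqvGen.symm _ _ ih)
    · exact Or.inr ⟨h2, h1⟩
  | trans x y z _ _ ih1 ih2 =>
    rcases ih1 with h1 | ⟨h1, h2⟩ <;> rcases ih2 with h3 | ⟨h3, h4⟩
    · exact Or.inl (Relation.EqvGen.trans _ _ _ h1 h3)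
    · refine Or.inr ⟨?_, h4⟩
      rcases h3 with h3 | h3
      · exact Or.inl (Relation.EqvGen.trans _ _ _ h1 h3)
      · exact Or.inr (Relation.EqvGen.trans _ _ _ h1 h3)
    · refine Or.inr ⟨h1, ?_⟩
      rcases h2 with h2 | h2
      · exact Or.inl (Relation.EqvGen.trans _ _ _ (Relation.EqvGen.symm _ _ h3) h2)
      · exact Or.inr (Relation.EqvGen.trans _ _ _ (Relation.EqvGen.symm _ _ h3) h2)
    · exact Or.inr ⟨h1, h4⟩

theorem jn_iff {a k : ℕ} (hk : a + 3 = 2 * k) (R R1 R2 : St)
    (h1 : ∀ x y, R1.rel x y → x = y ∨ (x < a + 1 ∧ y < a + 1)) (x y : ℕ) :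
    Relation.EqvGen (fun x y => R.rel x y ∨ (comb k R1 R2).rel x y) x y ↔
      Relation.EqvGen (J5 a R R1 R2) x y := by
  constructor
  · refine eqvGen_le fun x y h => ?_
    rcases h with h | h
    · exact Relation.EqvGen.rel _ _ (Or.inl h)
    · rcases h with h | ⟨h2, h3, h4⟩ | ⟨h2, h3, h4⟩
      · subst h; exact Relation.EqvGen.refl _
      · rcases h1 x y h4 with h5 | h5
        · subst h5; exact Relation.EqvGen.refl _
        · exact Relation.EqvGen.rel _ _ (Or.inr (Or.inl ⟨h4, by omega, by omega⟩))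
      · rcases R2.odd _ _ h4 with h5 | ⟨h5, h6⟩
        · have : x = y := by omega
          subst this; exact Relation.EqvGen.refl _
        · refine Relation.EqvGen.rel _ _ (Or.inr (Or.inr ⟨by omega, by omega, ?_⟩))
          rw [hk]; exact h4
  · refine eqvGen_le fun x y h => ?_
    rcases h with h | ⟨h, h2, h3⟩ | ⟨h2, h3, h⟩
    · exact Relation.EqvGen.rel _ _ (Or.inl h)
    · exact Relation.EqvGen.rel _ _ (Or.inr (Or.inr (Or.inl ⟨by omega, by omega, h⟩)))
    · refine Relation.EqvGen.rel _ _ (Or.inr (Or.inr (Or.inr ⟨by omega, by omega, ?_⟩)))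
      rw [← hk]; exact h

theorem jn_iffB {a b k : ℕ} (hk : a + 3 = 2 * k) (R R1 R2 : St)
    (h1 : ∀ x y, R1.rel x y → x = y ∨ (x < a + 1 ∧ y < a + 1)) :
    jn a (a + 3 + b) R (comb k R1 R2) ↔ connB a b R R1 R2 := by
  have e : a + 3 + b = a + b + 3 := by omega
  unfold jn connB
  rw [e]
  exact jn_iff hk R R1 R2 h1 _ _

theorem jn_iffT {a b k : ℕ} (hk : a + 3 = 2 * k) (R R1 R2 : St)
    (h1 : ∀ x y, R1.rel x y → x = y ∨ (x < a + 1 ∧ y < a + 1)) :
    jn a (a + 3 + b) (R.act a) (comb k R1 R2) ↔ (connT a b R R1 R2 ∨ connB a b R R1 R2) := by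
  have e : a + 3 + b = a + b + 3 := by omega
  have hodd : a % 2 = 1 := by omega
  unfold jn connB connT
  rw [e, ← jn_iff hk R R1 R2 h1, ← jn_iff hk R R1 R2 h1]
  set F : ℕ → ℕ → Prop := fun x y => R.rel x y ∨ (comb k R1 R2).rel x y with hF
  have rF : ∀ {x y : ℕ}, R.rel x y → Relation.EqvGen F x y :=
    fun h => Relation.EqvGen.rel _ _ (Or.inl h)
  constructor
  · intro h
    have h2 := eqvGen_edge (E := fun x y => (R.act a).rel x y ∨ (comb k R1 R2).rel x y) (F := F)
      (p := a) (p' := a + 2) (by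
        rintro x y (h | h)
        · rcases h with h | ⟨h3, h4, h5, h6, h7⟩
          · subst h; exact Or.inl (Relation.EqvGen.refl _)
          · rcases h7 with h | ⟨h, h'⟩ | ⟨h, h'⟩
            · exact Or.inl (rF h)
            · exact Or.inr ⟨Or.inl (rF h), Or.inr (Relation.EqvGen.symm _ _ (rF h'))⟩
            · exact Or.inr ⟨Or.inr (rF h), Or.inl (Relation.EqvGen.symm _ _ (rF h'))⟩
        · exact Or.inl (Relation.EqvGen.rel _ _ (Or.inr h))) h
    rcases h2 with h2 | ⟨-, h2 | h2⟩
    · exact Or.inr h2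
    · exact Or.inr (Relation.EqvGen.symm _ _ h2)
    · exact Or.inl (Relation.EqvGen.symm _ _ h2)
  · have hle : ∀ {x y : ℕ}, Relation.EqvGen F x y →
        Relation.EqvGen (fun x y => (R.act a).rel x y ∨ (comb k R1 R2).rel x y) x y := by
      intro x y h
      refine eqvGen_le (fun x y h => ?_) h
      rcases h with h | h
      · by_cases hxy : x = y
        · subst hxy; exact Relation.EqvGen.refl _
        · rcases R.odd _ _ h with h3 | ⟨h3, h4⟩
          · exact absurd h3 hxy
          · exact Relation.EqvGen.rel _ _ (Or.inl (Or.inr ⟨h3, h4, by omega, by omega, Or.inl h⟩))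
      · exact Relation.EqvGen.rel _ _ (Or.inr h)
    rintro (h | h)
    · refine Relation.EqvGen.trans _ (a + 2) _ ?_ (hle h)
      exact Relation.EqvGen.rel _ _ (Or.inl (Or.inr ⟨hodd, by omega, by omega, by omega,
        Or.inr (Or.inl ⟨R.eqv.1 _, R.eqv.1 _⟩)⟩))
    · exact hle h

open Classical in
theorem pairG_comb (p r k : ℕ) (f g h : St →₀ ℂ) :
    pairG p r f (comb2 k g h) = f.sum fun R α => g.sum fun R1 β => h.sum fun R2 γ =>
      α * β * γ * (if jn p r R (comb k R1 R2) then 1 else 0) := by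
  unfold pairG comb2
  refine Finsupp.sum_congr fun R _ => ?_
  rw [Finsupp.sum_sum_index]
  · refine Finsupp.sum_congr fun R1 hR1 => ?_
    rw [Finsupp.sum_sum_index]
    · refine Finsupp.sum_congr fun R2 _ => ?_
      rw [Finsupp.sum_single_index]
      · ring
      · simp
    · intro R'; simp
    · intro R' b1 b2; ring
  · intro R'; simp
  · intro R' b1 b2; ring

open Classical in
theorem pairG_act_comb (a p r k : ℕ) (f g h : St →₀ ℂ) :
    pairG p r (Finsupp.mapDomain (St.act a) f) (comb2 k g h) =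
      f.sum fun R α => g.sum fun R1 β => h.sum fun R2 γ =>
      α * β * γ * (if jn p r (R.act a) (comb k R1 R2) then 1 else 0) := by
  rw [pairG_comb, Finsupp.sum_mapDomain_index]
  · intro R
    simp
  · intro R α β
    simp only [Finsupp.sum, ← Finset.sum_add_distrib]
    refine Finset.sum_congr rfl fun R1 _ => Finset.sum_congr rfl fun R2 _ => ?_
    ring

theorem pr3_pair (a b k : ℕ) (hk : a + 3 = 2 * k) (f g h : St →₀ ℂ)
    (hg : ∀ R ∈ g.support, ∀ x y, R.rel x y → x = y ∨ (x < a + 1 ∧ y < a + 1)) :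
    pr3 a (a + 3 + b) f (comb2 k g h) = pair5 a b f g h := by
  classical
  unfold pr3 pair5
  rw [pairG_act_comb, pairG_comb]
  simp only [Finsupp.sum, ← Finset.sum_sub_distrib]
  refine Finset.sum_congr rfl fun R _ => Finset.sum_congr rfl fun R1 hR1 =>
    Finset.sum_congr rfl fun R2 _ => ?_
  have hT := jn_iffT (b := b) hk R R1 R2 (hg R1 hR1)
  have hB := jn_iffB (b := b) hk R R1 R2 (hg R1 hR1)
  simp only [hT, hB]
  by_cases c1 : connT a b R R1 R2 <;> by_cases c2 : connB a b R R1 R2 <;> simp [c1, c2]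

theorem c15 : S_C15 := by
  intro a b ha hb
  obtain ⟨m, hm⟩ := ha
  have e1 : (List.replicate a (1 : ℂ)).map (fun x => x⁻¹) = List.replicate a 1 := by
    rw [List.map_replicate, inv_one]
  have e2 : (List.replicate b (1 : ℂ)).map (fun x => x⁻¹) = List.replicate b 1 := by
    rw [List.map_replicate, inv_one]
  have e3 : List.replicate a (1 : ℂ) ++ 1 :: 1 :: 1 :: (List.replicate b 1 ++ [0]) =
      List.replicate (a + b + 3) 1 ++ [0] := by
    have h1 : (1 : ℂ) :: 1 :: 1 :: (List.replicate b 1 ++ [0]) =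
        List.replicate (b + 3) 1 ++ [0] := by
      rw [List.replicate_succ, List.replicate_succ, List.replicate_succ]
      rfl
    rw [h1, ← List.append_assoc, List.replicate_append_replicate, add_assoc]
  unfold GR3 up1 psi1
  rw [e1, e2, e3, List.length_replicate, List.length_replicate]
  symm
  refine pr3_pair a b ((a + 3) / 2) (by omega) _ _ _ ?_
  intro R hR x y hxy
  have := Psi_supp (List.replicate a (1 : ℂ) ++ [0]) (by
    rw [List.length_append, List.length_replicate]; exact ⟨m + 1, by simp; omega⟩) R hR x y hxy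
  rwa [List.length_append, List.length_replicate] at this

end Pool.Agent.Y125.TL
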